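import Mathlib

set_option autoImplicit false
open MeasureTheory Filter Topology Set Cardinal

namespace Pool.Agent.Results.MP_83934b_an.Split

abbrev S := UnitAddCircle

/-- Lebesgue measurable and measure preserving -/
def MP (f : S → S) : Prop :=
  ∀ A : Set S, NullMeasurableSet A volume →
    NullMeasurableSet (f ⁻¹' A) volume ∧ volume (f ⁻¹' A) = volume A

lemma MP.comp {f g : S → S} (hf : MP f) (hg : MP g) : MP (f ∘ g) := fun A hA =>
  ⟨(hg _ (hf A hA).1).1, (hg _ (hf A hA).1).2.trans (hf A hA).2⟩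

lemma MP.ae {f : S → S} (hf : MP f) {P : S → Prop} (h : ∀ᵐ x, P x) : ∀ᵐ x, P (f x) :=
  (hf _ (NullMeasurableSet.of_null h)).2.trans h

lemma MP.congr {f g : S → S} (hf : MP f) (h : ∀ᵐ x, g x = f x) : MP g := fun A hA => by
  have e : f ⁻¹' A =ᵐ[volume] g ⁻¹' A := by
    filter_upwards [h] with x hx
    change (f x ∈ A) = (g x ∈ A)
    rw [hx]
  exact ⟨(hf A hA).1.congr e, (measure_congr e).symm.trans (hf A hA).2⟩

/-- the group `G-hat` -/
def Ghat : Subgroup (Equiv.Perm S) where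
  carrier := {f | MP f ∧ MP f.symm}
  one_mem' := ⟨fun _ h => ⟨h, rfl⟩, fun _ h => ⟨h, rfl⟩⟩
  mul_mem' := fun hf hg => ⟨hf.1.comp hg.1, hg.2.comp hf.2⟩
  inv_mem' := fun hf => ⟨hf.2, hf.1⟩

/-- the subgroup of maps equal to the identity almost everywhere -/
def N : Subgroup Ghat where
  carrier := {f | ∀ᵐ x, (f : Equiv.Perm S) x = x}
  one_mem' := ae_of_all _ fun _ => rfl
  mul_mem' := fun {f g} hf hg => by
    simp only [mem_setOf_eq] at hf hg ⊢
    filter_upwards [hf, hg] with x h1 h2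
    simp [h1, h2]
  inv_mem' := fun {f} hf => by
    simp only [mem_setOf_eq] at hf ⊢
    filter_upwards [hf] with x h1
    simpa [Equiv.symm_apply_eq] using h1.symm

instance : N.Normal := ⟨fun f hf g => by
  filter_upwards [g.2.2.ae hf] with x hx
  change g.1 (f.1 (g.1.symm x)) = x
  rw [hx, Equiv.apply_symm_apply]⟩

/-- piecewise isometric: `x ↦ ± x + c` on each of finitely many intervals partitioning the circle -/
def PI (f : S → S) : Prop :=
  ∃ (n : ℕ) (I : Fin n → Set ℝ), (∀ i, (I i).OrdConnected) ∧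
    (∀ x : S, ∃! i, ∃ r ∈ I i, (r : S) = x) ∧
    ∀ i, ∃ c : S, (∀ r ∈ I i, f r = r + c) ∨ (∀ r ∈ I i, f r = -r + c)

lemma PI.loc {f : S → S} (h : PI f) :
    {x | ¬ ∃ e : S ≃ₜ S, f =ᶠ[𝓝 x] e}.Finite := by
  obtain ⟨n, I, h1, h2, h3⟩ := h
  have hf : ∀ i, {r | IsLeast (I i) r ∨ IsGreatest (I i) r}.Finite := fun i =>
    (Set.Subsingleton.finite fun _ ha _ hb => IsLeast.unique ha hb).union
      (Set.Subsingleton.finite fun _ ha _ hb => IsGreatest.unique ha hb)
  refine ((finite_iUnion hf).image ((↑) : ℝ → S)).subset fun x hx => ?_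
  obtain ⟨i, ⟨r, hr, rfl⟩, -⟩ := h2 x
  by_contra hn
  have hn' : ¬ (IsLeast (I i) r ∨ IsGreatest (I i) r) := fun h => hn ⟨r, mem_iUnion.2 ⟨i, h⟩, rfl⟩
  simp only [IsLeast, IsGreatest, hr, true_and, not_or, mem_lowerBounds, mem_upperBounds,
    not_forall, not_le] at hn'
  obtain ⟨⟨a, ha, ha'⟩, b, hb, hb'⟩ := hn'
  have hI : I i ∈ 𝓝 r := mem_of_superset (Icc_mem_nhds ha' hb') ((h1 i).out ha hb)
  have hI' : ((↑) : ℝ → S) '' I i ∈ 𝓝 (r : S) := QuotientAddGroup.isOpenMap_coe.image_mem_nhds hI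
  obtain ⟨c, hc | hc⟩ := h3 i
  · exact hx ⟨Homeomorph.addRight c, mem_of_superset hI' (by rintro _ ⟨s, hs, rfl⟩; exact hc s hs)⟩
  · exact hx ⟨(Homeomorph.neg S).trans (Homeomorph.addRight c),
      mem_of_superset hI' (by rintro _ ⟨s, hs, rfl⟩; exact hc s hs)⟩

def CF (f : S → S) : Prop := {x | ¬ ContinuousAt f x}.Finite

lemma PI.cf {f : S → S} (h : PI f) : CF f :=
  h.loc.subset fun x hx ⟨e, he⟩ => hx (e.continuous.continuousAt.congr he.symm)

lemma PI.mapb {f : S → S} (h : PI f) : {x | map f (𝓝[≠] x) ≠ 𝓝[≠] (f x)}.Finite :=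
  h.loc.subset fun x hx ⟨e, he⟩ => hx (by
    rw [map_congr (he.filter_mono nhdsWithin_le_nhds), e.map_punctured_nhds_eq, he.eq_of_nhds])

lemma CF.eq {f g : S → S} (hf : CF f) (hg : CF g) (h : ∀ᵐ x, f x = g x) : f =ᶠ[cofinite] g := by
  refine (hf.union hg).subset fun x hx => ?_
  by_contra hn
  simp only [mem_union, mem_setOf_eq, not_or, not_not] at hn
  exact hx (tendsto_nhds_unique_of_frequently_eq hn.1 hn.2
    (mem_closure_iff_frequently.1 (Measure.dense_of_ae h x)))

lemma CF.comp {f g : S → S} (hf : CF f) (hg : CF g) (hi : Function.Injective g) : CF (f ∘ g) := by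
  refine ((hf.preimage hi.injOn).union hg).subset fun x hx => ?_
  by_contra hn
  simp only [mem_union, mem_setOf_eq, mem_preimage, not_or, not_not] at hn
  exact hx (ContinuousAt.comp hn.1 hn.2)

lemma vol_cantor : volume cantorSet = 0 := by
  have h1 : volume cantorSet ≤ volume ((3 * ·) ⁻¹' cantorSet) +
      volume ((fun x => 3 * x - 2) ⁻¹' cantorSet) := by
    refine le_trans (measure_mono ?_) (measure_union_le _ _)
    conv_lhs => rw [cantorSet_eq_union_halves]
    rintro _ (⟨x, hx, rfl⟩ | ⟨x, hx, rfl⟩)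
    · left; simpa [mul_div_cancel₀] using hx
    · right; simpa [mul_div_cancel₀] using hx
  have h2 : (fun x : ℝ => 3 * x - 2) ⁻¹' cantorSet = (3 * ·) ⁻¹' ((· + (-2)) ⁻¹' cantorSet) := by
    ext x; simp [sub_eq_add_neg]
  rw [h2, Real.volume_preimage_mul_left (by norm_num), Real.volume_preimage_mul_left (by norm_num),
    measure_preimage_add_right] at h1
  have h3 : volume cantorSet ≠ ⊤ := isCompact_cantorSet.measure_lt_top.ne
  lift volume cantorSet to NNReal using h3 with v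
  rw [← ENNReal.ofReal_coe_nnreal, ← ENNReal.ofReal_mul (abs_nonneg _), ← ENNReal.ofReal_add
    (by positivity) (by positivity), ENNReal.ofReal_le_ofReal_iff (by positivity),
    abs_of_pos (by norm_num)] at h1
  have : (v : ℝ) = 0 := by linarith [v.coe_nonneg]
  simpa using this

lemma null_big : ∃ C : Set S, volume C = 0 ∧ 𝔠 ≤ #C := by
  refine ⟨(fun x : ℝ => ((x / 2 : ℝ) : S)) '' cantorSet, ?_, ?_⟩
  · rw [← (AddCircle.measurePreserving_mk 1 0).measure_preimage
      (isCompact_cantorSet.image (by fun_prop)).measurableSet.nullMeasurableSet]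
    refine le_antisymm ((Measure.restrict_apply_le _ _).trans (le_of_eq ?_)) zero_le
    refine measure_mono_null (t := ⋃ n : ℤ, (2 * ·) ⁻¹' ((· + (2 * n : ℝ)) ⁻¹' cantorSet)) ?_
      (measure_iUnion_null fun n => by
        rw [Real.volume_preimage_mul_left (by norm_num), measure_preimage_add_right, vol_cantor,
          mul_zero])
    rintro y ⟨x, hx, e⟩
    obtain ⟨n, hn⟩ := (AddCircle.coe_eq_zero_iff 1).1 (show ((x / 2 - y : ℝ) : S) = 0 by
      rw [AddCircle.coe_sub, sub_eq_zero]; exact e)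
    refine mem_iUnion.2 ⟨n, ?_⟩
    simp only [zsmul_eq_mul, mul_one] at hn
    simp only [mem_preimage]
    rwa [hn, show 2 * y + 2 * (x / 2 - y) = x by ring]
  · rw [mk_image_eq_of_injOn, mk_congr cantorSetEquivNatToBool]
    · simp
    · intro x hx y hy e
      have h1 := cantorSet_subset_unitInterval hx
      have h2 := cantorSet_subset_unitInterval hy
      have := (AddCircle.coe_eq_coe_iff_of_mem_Ico (p := 1) (a := 0) (x := x / 2) (y := y / 2)
        ⟨by linarith [h1.1], by linarith [h1.2]⟩ ⟨by linarith [h2.1], by linarith [h2.2]⟩).1 e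
      linarith

instance : Infinite S := by
  obtain ⟨C, -, h⟩ := null_big
  exact infinite_iff.2 (aleph0_le_continuum.trans (h.trans (mk_set_le C)))

lemma cardS : #S ≤ 𝔠 := by
  rw [← mk_real]; exact mk_le_of_surjective QuotientAddGroup.mk_surjective

lemma cardCF : #{f : S → S | CF f} ≤ 𝔠 := by
  classical
  obtain ⟨D, hD, hd⟩ := TopologicalSpace.exists_countable_dense S
  have e : {f : S → S | CF f} ⊆ ⋃ F : Finset S, {f | ∀ x ∉ F, ContinuousAt f x} := fun f hf =>
    mem_iUnion.2 ⟨Set.Finite.toFinset hf, fun x hx => by simpa using hx⟩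
  refine (mk_le_mk_of_subset e).trans ((mk_iUnion_le _).trans ?_)
  rw [← continuum_mul_self]
  refine mul_le_mul' ?_ (ciSup_le' fun F => ?_)
  · exact (mk_finset_of_infinite S).trans_le cardS
  · have hc : (D ∪ ↑F).Countable := hD.union F.countable_toSet
    refine (mk_le_of_injective (f := fun (f : {f : S → S | ∀ x ∉ F, ContinuousAt f x})
      (y : ↥(D ∪ ↑F)) => f.1 y) fun f g h => Subtype.ext (funext fun x => ?_)).trans ?_
    · by_cases hx : x ∈ F
      · exact congrFun h ⟨x, Or.inr hx⟩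
      · exact tendsto_nhds_unique_of_frequently_eq (f.2 x hx) (g.2 x hx)
          ((mem_closure_iff_frequently.1 (hd x)).mono fun y hy => congrFun h ⟨y, Or.inl hy⟩)
    · rw [← power_def, ← continuum_power_aleph0]
      exact (power_le_power_right cardS).trans
        (power_le_power_left continuum_ne_zero (le_aleph0_iff_set_countable.2 hc))

lemma b_inj : Function.Injective fun x : S => 𝓝[≠] x := fun x y h => by
  have h' : 𝓝[≠] x = 𝓝[≠] y := h
  exact tendsto_nhds_unique (l := 𝓝[≠] x) (f := id) nhdsWithin_le_nhds (h' ▸ nhdsWithin_le_nhds)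

lemma b_cof (x : S) : 𝓝[≠] x ≤ cofinite := nhdsNE_le_cofinite x

/-- `H` consists of classes of elements with property `P` -/
def Reps {G : Type} [Group G] (N : Subgroup G) [N.Normal] (P : G → Prop)
    (H : Subgroup (G ⧸ N)) : Prop :=
  ∀ g ∈ H, ∃ f : G, P f ∧ QuotientGroup.mk' N f = g

/-- the quotient map `G → G ⧸ N` splits over `H` -/
def Splits {G : Type} [Group G] (N : Subgroup G) [N.Normal] (H : Subgroup (G ⧸ N)) : Prop :=
  ∃ σ : H →* G, ∀ g : H, QuotientGroup.mk' N (σ g) = g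

theorem result (H : Subgroup (Ghat ⧸ N)) (hH : Reps N (fun f => PI f.1) H) : Splits N H := by
  unfold Reps at hH
  unfold Splits
  choose! r hr1 hr2 using hH
  have key : ∀ f f' : Ghat, QuotientGroup.mk' N f = QuotientGroup.mk' N f' ↔
      ∀ᵐ x, f'.1 x = f.1 x := fun f f' => by
    rw [QuotientGroup.mk'_apply, QuotientGroup.mk'_apply, QuotientGroup.eq]
    exact eventually_congr (ae_of_all _ fun x => Equiv.symm_apply_eq f.1)
  have cf : ∀ g : H, CF (r g).1 := fun g => (hr1 g g.2).cf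
  have h1 : ⇑(r (1 : H)).1 =ᶠ[cofinite] id := (cf 1).eq (by simp [CF, continuousAt_id])
    ((key 1 (r (1 : H))).1 (by rw [hr2 _ (1 : H).2]; simp))
  have hm : ∀ g h : H, ⇑(r (g * h : H)).1 =ᶠ[cofinite] (r g).1 ∘ (r h).1 := fun g h =>
    (cf (g * h)).eq ((cf g).comp (cf h) (r h).1.injective)
      ((key (r g * r h) (r (g * h : H))).1 (by
        rw [hr2 _ (g * h).2, map_mul, hr2 _ g.2, hr2 _ h.2]; rfl))
  set Ω : Set (Filter S) := range fun z : H × S => map (r z.1).1 (𝓝[≠] z.2) with hΩ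
  have cof : ∀ F ∈ Ω, F ≤ cofinite := by
    rintro _ ⟨⟨g, x⟩, rfl⟩
    exact (map_mono (b_cof x)).trans (r g).1.injective.tendsto_cofinite
  have clo : ∀ g : H, ∀ F ∈ Ω, map (r g).1 F ∈ Ω := by
    rintro g _ ⟨⟨h, x⟩, rfl⟩
    exact ⟨(g * h, x), by rw [map_map]; exact map_congr ((hm g h).filter_mono (b_cof x))⟩
  have bm : ∀ x : S, 𝓝[≠] x ∈ Ω := fun x =>
    ⟨(1, x), (map_congr (h1.filter_mono (b_cof x))).trans map_id⟩
  let act : MulAction H Ω :=
    { smul := fun g F => ⟨map (r g).1 F, clo g F F.2⟩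
      one_smul := fun F => Subtype.ext ((map_congr (h1.filter_mono (cof F F.2))).trans map_id)
      mul_smul := fun g h F => Subtype.ext
        ((map_congr ((hm g h).filter_mono (cof F F.2))).trans map_map.symm) }
  obtain ⟨C, hC0, hC⟩ := null_big
  let b : S ↪ Ω := ⟨fun x => ⟨_, bm x⟩, fun x y h => b_inj (congrArg Subtype.val h)⟩
  have cH : #H ≤ 𝔠 := (mk_le_of_injective (f := fun g : H => (⟨(r g).1, cf g⟩ : {f | CF f}))
    fun g h e => Subtype.ext (by
      rw [← hr2 _ g.2, ← hr2 _ h.2]; congr 1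
      exact Subtype.ext (DFunLike.coe_injective (congrArg Subtype.val e)))).trans cardCF
  have cΩ : #Ω ≤ 𝔠 := mk_range_le.trans (by
    rw [mk_prod, lift_id, lift_id, ← continuum_mul_self]; exact mul_le_mul' cH cardS)
  obtain ⟨β, hβ⟩ := extend_function (s := Cᶜ) ((Function.Embedding.subtype _).trans b) (by
    refine Cardinal.eq.1 (le_antisymm ?_ ((mk_set_le _).trans (cΩ.trans (by rwa [compl_compl]))))
    refine mk_le_of_injective (f := fun x => ⟨b x.1, ?_⟩) fun x y h =>
      Subtype.ext (b.injective (congrArg Subtype.val h))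
    rintro ⟨y, hy⟩
    exact x.2 (b.injective hy ▸ y.2))
  let σ0 : H →* Equiv.Perm S := β.symm.permCongrHom.toMonoidHom.comp (MulAction.toPermHom H Ω)
  have hσ : ∀ g : H, ∀ᵐ x, σ0 g x = (r g).1 x := by
    intro g
    have a1 : ∀ᵐ x, x ∉ C := measure_eq_zero_iff_ae_notMem.1 hC0
    filter_upwards [a1, (r g).2.1.ae a1, measure_eq_zero_iff_ae_notMem.1
      ((hr1 g g.2).mapb.measure_zero volume)] with x h1 h2 h3
    change β.symm (g • β x) = _
    rw [Equiv.symm_apply_eq, hβ ⟨x, h1⟩, hβ ⟨_, h2⟩]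
    exact Subtype.ext (not_not.1 h3)
  refine ⟨σ0.codRestrict Ghat fun g => ⟨(r g).2.1.congr (hσ g), (r g).2.2.congr ?_⟩, fun g => ?_⟩
  · filter_upwards [(r g).2.2.ae (hσ g)] with y hy
    rw [Equiv.symm_apply_eq, hy, Equiv.apply_symm_apply]
  · rw [← hr2 _ g.2, eq_comm, key]; exact hσ g

end Pool.Agent.Results.MP_83934b_an.Split
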